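import Mathlib
import Pool.Agent.H728R3.SR.L
set_option autoImplicit false

/-! Elementary facts: the reverse Khinchine inequality, sums over pairs, Hoelder on sets. -/

namespace Pool.Agent.Q167.HM

open MeasureTheory Set Complex
open scoped ENNReal NNReal
open Pool.Agent.H728R3.SR (sg khinchine K1)

lemma par (w z : ℂ) : ‖z + w‖ ^ 2 + ‖-z + w‖ ^ 2 = 2 * ‖z‖ ^ 2 + 2 * ‖w‖ ^ 2 := by
  have := parallelogram_law_with_norm ℂ w z
  rw [show z + w = w + z by ring, show -z + w = w - z by ring]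
  nlinarith [this]

lemma l2_signs : ∀ (N : ℕ) (z : Fin N → ℂ),
    ∑ ε : Fin N → Bool, ‖∑ k, (sg (ε k) : ℂ) * z k‖ ^ 2 = 2 ^ N * ∑ k, ‖z k‖ ^ 2 := by
  intro N
  induction N with
  | zero => intro z; simp
  | succ N ih =>
    intro z
    have h := Fintype.sum_equiv (Fin.consEquiv (fun _ : Fin (N + 1) => Bool))
      (fun p : Bool × (Fin N → Bool) =>
        ‖(sg p.1 : ℂ) * z 0 + ∑ k, (sg (p.2 k) : ℂ) * z k.succ‖ ^ 2)
      (fun ε : Fin (N + 1) → Bool => ‖∑ k, (sg (ε k) : ℂ) * z k‖ ^ 2) (by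
        intro p
        rw [Fin.sum_univ_succ]
        simp [Fin.consEquiv])
    rw [← h, Fintype.sum_prod_type]
    rw [Fintype.sum_bool, ← Finset.sum_add_distrib]
    have h2 : ∀ ε : Fin N → Bool,
        ‖(sg true : ℂ) * z 0 + ∑ k, (sg (ε k) : ℂ) * z k.succ‖ ^ 2 +
        ‖(sg false : ℂ) * z 0 + ∑ k, (sg (ε k) : ℂ) * z k.succ‖ ^ 2 =
        2 * ‖z 0‖ ^ 2 + 2 * ‖∑ k, (sg (ε k) : ℂ) * z k.succ‖ ^ 2 := by
      intro ε
      rw [← par]
      simp [sg]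
    simp only [h2]
    rw [Finset.sum_add_distrib, ← Finset.mul_sum, ← Finset.mul_sum, ih, Fin.sum_univ_succ]
    simp
    ring

lemma l2_signs' (N : ℕ) (z : Fin N → ℂ) :
    ∑ ε : Fin N → Bool, ‖∑ k, (sg (ε k) : ℂ) * z k‖ₑ ^ 2 = 2 ^ N * ∑ k, ‖z k‖ₑ ^ 2 := by
  have h := congrArg ENNReal.ofReal (l2_signs N z)
  rw [ENNReal.ofReal_sum_of_nonneg (fun _ _ => by positivity),
    ENNReal.ofReal_mul (by positivity), ENNReal.ofReal_sum_of_nonneg (fun _ _ => by positivity)] at h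
  simp only [ENNReal.ofReal_pow (norm_nonneg _), ofReal_norm] at h
  rw [h]
  congr 1
  rw [ENNReal.ofReal_pow (by norm_num)]
  simp

/-- the easy half of Khinchine's inequality -/
lemma kh_low (N : ℕ) (z : Fin N → ℂ) (r : ℝ) (hr : 2 ≤ r) :
    (∑ k, ‖z k‖ₑ ^ 2) ^ (r / 2) ≤
      ((2 : ℝ≥0∞) ^ N)⁻¹ * ∑ ε : Fin N → Bool, ‖∑ k, (sg (ε k) : ℂ) * z k‖ₑ ^ r := by
  have hc : ∑ ε : Fin N → Bool, ((2 : ℝ≥0∞) ^ N)⁻¹ = 1 := by
    rw [Finset.sum_const, nsmul_eq_mul]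
    simp only [Finset.card_univ, Fintype.card_fun, Fintype.card_bool, Fintype.card_fin,
      Nat.cast_pow, Nat.cast_ofNat]
    exact ENNReal.mul_inv_cancel (by positivity) (by simp)
  have h := ENNReal.rpow_arith_mean_le_arith_mean_rpow Finset.univ
    (fun _ : Fin N → Bool => ((2 : ℝ≥0∞) ^ N)⁻¹)
    (fun ε => ‖∑ k, (sg (ε k) : ℂ) * z k‖ₑ ^ 2) hc (p := r / 2) (by linarith)
  rw [← Finset.mul_sum, ← Finset.mul_sum, l2_signs', ← mul_assoc,
    ENNReal.inv_mul_cancel (by positivity) (by simp), one_mul] at h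
  refine h.trans (le_of_eq ?_)
  congr 1
  apply Finset.sum_congr rfl
  intro ε _
  rw [← ENNReal.rpow_natCast, ← ENNReal.rpow_mul]
  congr 1
  push_cast
  ring

lemma sum_pairs (F : ℕ → ℝ≥0∞) (m : ℕ) :
    ∑ j ∈ Finset.range (2 * m), F j = ∑ k ∈ Finset.range m, (F (2 * k) + F (2 * k + 1)) := by
  induction m with
  | zero => simp
  | succ m ih =>
    rw [show 2 * (m + 1) = 2 * m + 1 + 1 by ring, Finset.sum_range_succ, Finset.sum_range_succ, ih,
      Finset.sum_range_succ]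
    ring

/-- Hoelder's inequality on a set -/
lemma holder_set {X : Type*} [MeasurableSpace X] (μ : Measure X) (F : X → ℝ≥0∞)
    (hF : Measurable F) (A : Set X) (r : ℝ) (hr : 1 < r) :
    ∫⁻ x in A, F x ∂μ ≤ (∫⁻ x in A, F x ^ r ∂μ) ^ (1 / r) * μ A ^ (1 - 1 / r) := by
  have hpq : r.HolderConjugate (r / (r - 1)) := by
    rw [Real.holderConjugate_iff]
    refine ⟨hr, ?_⟩
    rw [inv_div]
    have : r ≠ 0 := by linarith
    field_simp
    ring
  have h := ENNReal.lintegral_mul_le_Lp_mul_Lq (μ.restrict A) hpq (f := F) (g := fun _ => 1)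
    hF.aemeasurable measurable_const.aemeasurable
  simp only [Pi.mul_apply, mul_one, ENNReal.one_rpow, lintegral_const, one_mul,
    Measure.restrict_apply_univ] at h
  refine h.trans (le_of_eq ?_)
  congr 2
  have : r ≠ 0 := by linarith
  have h2 : r - 1 ≠ 0 := by linarith
  field_simp

/-- Jensen's inequality on a set of measure `1/c` -/
lemma jensen_set {X : Type*} [MeasurableSpace X] (μ : Measure X) (F : X → ℝ≥0∞)
    (hF : Measurable F) (A : Set X) (c : ℝ≥0∞) (hc : c ≠ 0) (hc' : c ≠ ⊤) (hA : μ A ≤ c⁻¹) (r : ℝ)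
    (hr : 1 < r) :
    (c * ∫⁻ x in A, F x ∂μ) ^ r ≤ c * ∫⁻ x in A, F x ^ r ∂μ := by
  have h := holder_set μ F hF A r hr
  have hr0 : 0 < r := by linarith
  have h1 : 1 / r * r = 1 := by field_simp
  have h2 : (1 - 1 / r) * r = r - 1 := by field_simp
  calc (c * ∫⁻ x in A, F x ∂μ) ^ r ≤
      (c * ((∫⁻ x in A, F x ^ r ∂μ) ^ (1 / r) * (c⁻¹) ^ (1 - 1 / r))) ^ r := by
        have h3 : 0 ≤ 1 - 1 / r := by
          have : 1 / r ≤ 1 := by
            rw [div_le_one hr0]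
            exact hr.le
          linarith
        have h4 : μ A ^ (1 - 1 / r) ≤ (c⁻¹) ^ (1 - 1 / r) := ENNReal.rpow_le_rpow hA h3
        exact ENNReal.rpow_le_rpow (mul_le_mul_right (h.trans (mul_le_mul_right h4 _)) _) hr0.le
    _ = c ^ r * ((∫⁻ x in A, F x ^ r ∂μ) * (c⁻¹) ^ (r - 1)) := by
        rw [ENNReal.mul_rpow_of_nonneg _ _ hr0.le, ENNReal.mul_rpow_of_nonneg _ _ hr0.le,
          ← ENNReal.rpow_mul, ← ENNReal.rpow_mul, h1, h2, ENNReal.rpow_one]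
    _ = c ^ r * (c⁻¹) ^ (r - 1) * ∫⁻ x in A, F x ^ r ∂μ := by ring
    _ = c * ∫⁻ x in A, F x ^ r ∂μ := by
        congr 1
        rw [ENNReal.inv_rpow, ← ENNReal.rpow_neg, ← ENNReal.rpow_add _ _ hc hc']
        rw [show r + -(r - 1) = 1 by ring, ENNReal.rpow_one]

end Pool.Agent.Q167.HM
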