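import Mathlib
import Pool.Agent.Q167.HM.Kh
set_option autoImplicit false

/-! The extension operator and functions on strips. -/

namespace Pool.Agent.Q167.HM

open MeasureTheory Set Complex
open scoped ENNReal NNReal
open Pool.Agent.H728R3.SR (sg khinchine K1 semi Itv WW main_W)
open Pool.Agent.H147R3.PE (ext)

/-- function on a strip -/
noncomputable def box (a b : ℝ) (g : ℝ → ℂ) (x : ℝ × ℝ) : ℂ :=
  (Ioc a b).indicator (fun _ => g x.2) x.1

lemma box_eq (a b : ℝ) (g : ℝ → ℂ) :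
    box a b g = fun x => (Ioc a b).indicator (fun _ => (1 : ℂ)) x.1 * g x.2 := by
  ext x
  unfold box
  by_cases h : x.1 ∈ Ioc a b
  · rw [indicator_of_mem h, indicator_of_mem h, one_mul]
  · rw [indicator_of_notMem h, indicator_of_notMem h, zero_mul]

lemma box_int (a b : ℝ) (g : ℝ → ℂ) (hg : Integrable g) : Integrable (box a b g) := by
  rw [box_eq, Measure.volume_eq_prod]
  refine Integrable.mul_prod ?_ hg
  rw [integrable_indicator_iff measurableSet_Ioc]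
  exact integrableOn_const (by simp)

lemma box_meas (a b : ℝ) (g : ℝ → ℂ) (hg : Measurable g) : Measurable (box a b g) := by
  rw [box_eq]
  exact ((measurable_const.indicator measurableSet_Ioc).comp measurable_fst).mul
    (hg.comp measurable_snd)

lemma box_lint (a b : ℝ) (g : ℝ → ℂ) (hg : Measurable g) :
    ∫⁻ x, ‖box a b g x‖ₑ = ENNReal.ofReal (b - a) * ∫⁻ y, ‖g y‖ₑ := by
  rw [box_eq, Measure.volume_eq_prod]
  simp only [enorm_mul]
  rw [lintegral_prod_mul (f := fun x => ‖(Ioc a b).indicator (fun _ => (1 : ℂ)) x‖ₑ)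
    (g := fun y => ‖g y‖ₑ)
    ((measurable_const.indicator measurableSet_Ioc).enorm.aemeasurable) hg.enorm.aemeasurable]
  congr 1
  have h1 : ∀ x, ‖(Ioc a b).indicator (fun _ => (1 : ℂ)) x‖ₑ =
      (Ioc a b).indicator (fun _ => (1 : ℝ≥0∞)) x := by
    intro x
    by_cases h : x ∈ Ioc a b
    · rw [indicator_of_mem h, indicator_of_mem h]
      simp
    · rw [indicator_of_notMem h, indicator_of_notMem h]
      simp
  simp only [h1]
  rw [lintegral_indicator measurableSet_Ioc]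
  simp

lemma ph_norm (x : ℝ × ℝ) (ξ : ℝ × ℝ × ℝ) :
    ‖cexp (-I * (x.1 * ξ.1 + x.2 * ξ.2.1 + (x.1 ^ 2 + x.2 ^ 2) * ξ.2.2))‖ = 1 := by
  have e : -I * (x.1 * ξ.1 + x.2 * ξ.2.1 + (x.1 ^ 2 + x.2 ^ 2) * ξ.2.2 : ℂ) =
      ((-(x.1 * ξ.1 + x.2 * ξ.2.1 + (x.1 ^ 2 + x.2 ^ 2) * ξ.2.2) : ℝ) : ℂ) * I := by
    push_cast
    ring
  rw [e, Complex.norm_exp_ofReal_mul_I]

lemma ph_int {f : ℝ × ℝ → ℂ} (hf : Integrable f) (ξ : ℝ × ℝ × ℝ) :
    Integrable (fun x : ℝ × ℝ =>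
      cexp (-I * (x.1 * ξ.1 + x.2 * ξ.2.1 + (x.1 ^ 2 + x.2 ^ 2) * ξ.2.2)) * f x) := by
  refine hf.mono ?_ (ae_of_all _ fun x => ?_)
  · exact ((by fun_prop : Measurable fun x : ℝ × ℝ =>
        cexp (-I * (x.1 * ξ.1 + x.2 * ξ.2.1 +
          (x.1 ^ 2 + x.2 ^ 2) * ξ.2.2))).aestronglyMeasurable).mul hf.aestronglyMeasurable
  · rw [norm_mul, ph_norm, one_mul]

lemma ext_lin {ι : Type*} (s : Finset ι) (c : ι → ℂ) (F : ι → ℝ × ℝ → ℂ)
    (hF : ∀ i ∈ s, Integrable (F i)) (ξ : ℝ × ℝ × ℝ) :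
    ext (fun x => ∑ i ∈ s, c i * F i x) ξ = ∑ i ∈ s, c i * ext (F i) ξ := by
  unfold Pool.Agent.H147R3.PE.ext
  simp only [← integral_const_mul]
  rw [← integral_finsetSum]
  · congr 1
    ext x
    rw [Finset.mul_sum]
    apply Finset.sum_congr rfl
    intro i _
    ring
  · intro i hi
    exact (ph_int (hF i hi) ξ).const_mul _

lemma ext_bd (f : ℝ × ℝ → ℂ) (ξ : ℝ × ℝ × ℝ) : ‖ext f ξ‖ₑ ≤ ∫⁻ x, ‖f x‖ₑ := by
  unfold Pool.Agent.H147R3.PE.ext
  refine (enorm_integral_le_lintegral_enorm _).trans (lintegral_mono fun x => ?_)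
  rw [enorm_mul, ← ofReal_norm, ph_norm]
  simp

lemma ext_me {f : ℝ × ℝ → ℂ} (hf : Measurable f) : Measurable (ext f) := by
  have h := Pool.Agent.H147R3.PE.ext_meas1 hf 1
  have hdil : Pool.Agent.H147R3.PE.dil 1 f = f := by
    unfold Pool.Agent.H147R3.PE.dil
    ext x
    rw [one_mul]
  rw [hdil] at h
  exact h

/-- square function estimate for functions on strips -/
theorem strips_sq (r : ℝ) (hr : 3 < r) :
    ∃ K : ℝ≥0∞, K ≠ ⊤ ∧ ∀ (N : ℕ) (a b : Fin N → ℝ) (g : Fin N → ℝ → ℂ), Itv a b →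
      (∀ k, Measurable (g k)) → (∀ k y, 1 < |y| → g k y = 0) → (∀ k, Integrable (g k)) →
      ∫⁻ ξ, (∑ k, ‖ext (box (a k) (b k) (g k)) ξ‖ₑ ^ 2) ^ (r / 2) ≤ K * WW a b g r := by
  obtain ⟨K, hK, -, hKK⟩ := main_W r hr
  refine ⟨K, hK, fun N a b g h hgm hg0 hgi => ?_⟩
  refine le_trans ?_ (hKK N a b g h hgm hg0)
  have h1 : ∀ (ε : Fin N → Bool) (ξ : ℝ × ℝ × ℝ), ext (semi a b g ε) ξ =
      ∑ k, (sg (ε k) : ℂ) * ext (box (a k) (b k) (g k)) ξ := by
    intro ε ξ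
    rw [← ext_lin Finset.univ (fun k => (sg (ε k) : ℂ)) (fun k => box (a k) (b k) (g k))
      (fun k _ => box_int _ _ _ (hgi k)) ξ]
    rfl
  calc ∫⁻ ξ, (∑ k, ‖ext (box (a k) (b k) (g k)) ξ‖ₑ ^ 2) ^ (r / 2)
      ≤ ∫⁻ ξ, ((2 : ℝ≥0∞) ^ N)⁻¹ * ∑ ε : Fin N → Bool, ‖ext (semi a b g ε) ξ‖ₑ ^ r := by
        apply lintegral_mono
        intro ξ
        simp only [h1]
        exact kh_low N _ r (by linarith)
    _ = _ := by
        have hm : ∀ ε : Fin N → Bool, Measurable fun ξ => ‖ext (semi a b g ε) ξ‖ₑ ^ r := fun ε =>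
          (ext_me (Pool.Agent.H728R3.SR.semi_meas hgm ε)).enorm.pow_const r
        rw [lintegral_const_mul _ (Finset.measurable_sum _ fun ε _ => hm ε),
          lintegral_finsetSum _ fun ε _ => hm ε]

end Pool.Agent.Q167.HM
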