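import Mathlib
import Pool.Agent.Q167.HM.Core
set_option autoImplicit false

/-! One-variable Haar functions. -/

namespace Pool.Agent.Q167.HM

open MeasureTheory Set Complex
open scoped ENNReal NNReal
open Pool.Agent.H728R3.SR (sg khinchine K1 semi Itv WW main_W)
open Pool.Agent.H147R3.PE (ext)

/-- dyadic points of `[-1/2, 1/2]` -/
noncomputable def pt (n k : ℕ) : ℝ := -1 / 2 + k / 2 ^ n

/-- the dyadic intervals -/
def JJ (n k : ℕ) : Set ℝ := Ioc (pt n k) (pt n (k + 1))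

/-- the Haar functions -/
noncomputable def haar (n k : ℕ) (x : ℝ) : ℝ :=
  Real.sqrt (2 ^ n) * ((Ioc (pt (n + 1) (2 * k)) (pt (n + 1) (2 * k + 1))).indicator 1 x -
    (Ioc (pt (n + 1) (2 * k + 1)) (pt (n + 1) (2 * k + 2))).indicator 1 x)

/-- the Haar coefficients -/
noncomputable def co (f : ℝ × ℝ → ℂ) (n k : ℕ) (y : ℝ) : ℂ := ∫ x, (haar n k x : ℂ) * f (x, y)

/-- the function on the half of a dyadic interval -/
noncomputable def gj (f : ℝ × ℝ → ℂ) (n j : ℕ) (y : ℝ) : ℂ :=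
  (((if j % 2 = 0 then 1 else -1) * Real.sqrt (2 ^ n) : ℝ) : ℂ) * co f n (j / 2) y

lemma pt_mono (n : ℕ) {k l : ℕ} (h : k ≤ l) : pt n k ≤ pt n l := by
  unfold pt
  gcongr

lemma pt_two (n k : ℕ) : pt (n + 1) (2 * k) = pt n k := by
  unfold pt
  rw [pow_succ]
  push_cast
  field_simp

lemma pt_sub (n k : ℕ) : pt n (k + 1) - pt n k = (2 ^ n)⁻¹ := by
  unfold pt
  push_cast
  field_simp
  ring

lemma pt_subE (n k : ℕ) : ENNReal.ofReal (pt n (k + 1) - pt n k) = ((2 : ℝ≥0∞) ^ n)⁻¹ := by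
  rw [pt_sub, ENNReal.ofReal_inv_of_pos (by positivity), ENNReal.ofReal_pow (by norm_num)]
  simp

lemma JJ_vol (n k : ℕ) : volume (JJ n k) = ((2 : ℝ≥0∞) ^ n)⁻¹ := by
  unfold JJ
  rw [Real.volume_Ioc, pt_subE]

lemma JJ_meas (n k : ℕ) : MeasurableSet (JJ n k) := measurableSet_Ioc

lemma JJ_disj (n : ℕ) {k l : ℕ} (h : k ≠ l) : Disjoint (JJ n k) (JJ n l) := by
  unfold JJ
  rw [Set.disjoint_left]
  intro x hx hx'
  rcases lt_or_gt_of_ne h with h1 | h1
  · have := pt_mono n (show k + 1 ≤ l by omega)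
    have h2 := hx.2
    have h3 := hx'.1
    linarith
  · have := pt_mono n (show l + 1 ≤ k by omega)
    have h2 := hx'.2
    have h3 := hx.1
    linarith

lemma pt_zero (n : ℕ) : pt n 0 = -1 / 2 := by
  unfold pt
  simp

lemma pt_last (n : ℕ) : pt n (2 ^ n) = 1 / 2 := by
  unfold pt
  push_cast
  field_simp
  norm_num

lemma itv (n : ℕ) : Itv (fun j : Fin (2 ^ n) => pt n j) (fun j : Fin (2 ^ n) => pt n (j + 1)) := by
  refine ⟨fun k => ?_, fun k => pt_mono n (by omega), fun k => ?_, fun k l hkl => ?_⟩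
  · have := pt_mono n (Nat.zero_le (k : ℕ))
    rw [pt_zero] at this
    linarith
  · have := pt_mono n (show (k : ℕ) + 1 ≤ 2 ^ n from k.2)
    rw [pt_last] at this
    linarith
  · exact JJ_disj n (fun h => hkl (Fin.ext h))

lemma sum_strips (n : ℕ) (F : ℝ → ℝ≥0∞) :
    ∑ k ∈ Finset.range (2 ^ n), ∫⁻ x in JJ n k, F x ≤ ∫⁻ x, F x := by
  rw [Finset.sum_range, ← tsum_fintype (L := .unconditional _),
    ← lintegral_iUnion (s := fun k : Fin (2 ^ n) => JJ n k) (fun k => JJ_meas n k)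
    (fun k l hkl => JJ_disj n (fun h => hkl (Fin.ext h)))]
  exact setLIntegral_le_lintegral _ _

lemma haar_meas (n k : ℕ) : Measurable (haar n k) := by
  unfold haar
  exact measurable_const.mul ((measurable_one.indicator measurableSet_Ioc).sub
    (measurable_one.indicator measurableSet_Ioc))

lemma haar_bd (n k : ℕ) (x : ℝ) :
    ‖(haar n k x : ℂ)‖ₑ ≤ (JJ n k).indicator (fun _ => ENNReal.ofReal (Real.sqrt (2 ^ n))) x := by
  have hs : ENNReal.ofReal (Real.sqrt (2 ^ n)) = ‖Real.sqrt (2 ^ n)‖ₑ := by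
    rw [← ofReal_norm, Real.norm_of_nonneg (by positivity)]
  have h1 := pt_mono (n + 1) (show 2 * k ≤ 2 * k + 1 by omega)
  have h2 := pt_mono (n + 1) (show 2 * k + 1 ≤ 2 * k + 2 by omega)
  have e : JJ n k = Ioc (pt (n + 1) (2 * k)) (pt (n + 1) (2 * k + 2)) := by
    unfold JJ
    rw [← pt_two n k, ← pt_two n (k + 1)]
    rfl
  have h0 : ‖(haar n k x : ℂ)‖ₑ = ‖haar n k x‖ₑ := by
    rw [← ofReal_norm, ← ofReal_norm, Complex.norm_real]
  rw [h0]
  unfold haar
  rw [enorm_mul, ← hs]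
  by_cases ha : x ∈ Ioc (pt (n + 1) (2 * k)) (pt (n + 1) (2 * k + 1))
  · have hb : x ∉ Ioc (pt (n + 1) (2 * k + 1)) (pt (n + 1) (2 * k + 2)) := fun h => by
      have := ha.2
      have := h.1
      linarith
    have hc : x ∈ JJ n k := by
      rw [e]
      exact ⟨ha.1, ha.2.trans h2⟩
    rw [indicator_of_mem ha, indicator_of_notMem hb, indicator_of_mem hc]
    simp
  · by_cases hb : x ∈ Ioc (pt (n + 1) (2 * k + 1)) (pt (n + 1) (2 * k + 2))
    · have hc : x ∈ JJ n k := by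
        rw [e]
        exact ⟨h1.trans_lt hb.1, hb.2⟩
      rw [indicator_of_notMem ha, indicator_of_mem hb, indicator_of_mem hc]
      simp
    · rw [indicator_of_notMem ha, indicator_of_notMem hb]
      simp

lemma co_meas {f : ℝ × ℝ → ℂ} (hf : Measurable f) (n k : ℕ) : Measurable (co f n k) := by
  unfold co
  have h : StronglyMeasurable (Function.uncurry fun x y : ℝ => (haar n k x : ℂ) * f (x, y)) := by
    apply Measurable.stronglyMeasurable
    exact (Complex.measurable_ofReal.comp ((haar_meas n k).comp measurable_fst)).mul hf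
  exact (StronglyMeasurable.integral_prod_left h).measurable

lemma co_bd (f : ℝ × ℝ → ℂ) (n k : ℕ) (y : ℝ) :
    ‖co f n k y‖ₑ ≤ ENNReal.ofReal (Real.sqrt (2 ^ n)) * ∫⁻ x in JJ n k, ‖f (x, y)‖ₑ := by
  unfold co
  refine (enorm_integral_le_lintegral_enorm _).trans ?_
  rw [← lintegral_const_mul' _ _ ENNReal.ofReal_ne_top, ← lintegral_indicator (JJ_meas n k)]
  apply lintegral_mono
  intro x
  simp only [enorm_mul]
  refine (mul_le_mul_left (haar_bd n k x) _).trans (le_of_eq ?_)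
  by_cases h : x ∈ JJ n k
  · rw [indicator_of_mem h, indicator_of_mem h]
  · rw [indicator_of_notMem h, indicator_of_notMem h, zero_mul]

lemma sgn_norm (j : ℕ) (n : ℕ) :
    ‖((((if j % 2 = 0 then 1 else -1) * Real.sqrt (2 ^ n) : ℝ) : ℂ))‖ₑ =
      ENNReal.ofReal (Real.sqrt (2 ^ n)) := by
  rw [← ofReal_norm, Complex.norm_real, norm_mul, Real.norm_of_nonneg (Real.sqrt_nonneg _)]
  split_ifs <;> simp

lemma gj_meas {f : ℝ × ℝ → ℂ} (hf : Measurable f) (n j : ℕ) : Measurable (gj f n j) :=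
  measurable_const.mul (co_meas hf n _)

lemma gj_bd (f : ℝ × ℝ → ℂ) (n j : ℕ) (y : ℝ) :
    ‖gj f n j y‖ₑ ≤ 2 ^ n * ∫⁻ x in JJ n (j / 2), ‖f (x, y)‖ₑ := by
  unfold gj
  rw [enorm_mul, sgn_norm]
  refine (mul_le_mul_right (co_bd f n (j / 2) y) _).trans (le_of_eq ?_)
  rw [← mul_assoc, ← ENNReal.ofReal_mul (Real.sqrt_nonneg _), Real.mul_self_sqrt (by positivity),
    ENNReal.ofReal_pow (by norm_num)]
  simp

end Pool.Agent.Q167.HM
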