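import Mathlib
import Pool.Agent.Q167.HM.Haar
set_option autoImplicit false

/-! Estimates for one generation of Haar functions. -/

namespace Pool.Agent.Q167.HM

open MeasureTheory Set Complex
open scoped ENNReal NNReal
open Pool.Agent.H728R3.SR (sg khinchine K1 semi Itv WW main_W)
open Pool.Agent.H147R3.PE (ext)

/-- the square -/
def Q0 : Set (ℝ × ℝ) := Ioc (-1 / 2 : ℝ) (1 / 2) ×ˢ Ioc (-1 / 2 : ℝ) (1 / 2)

/-- measurable functions supported in the square -/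
structure Sup (f : ℝ × ℝ → ℂ) : Prop where
  meas : Measurable f
  zero : ∀ x, x ∉ Q0 → f x = 0

lemma Q0_meas : MeasurableSet Q0 := measurableSet_Ioc.prod measurableSet_Ioc

lemma Q0_vol : volume Q0 = 1 := by
  unfold Q0
  rw [Measure.volume_eq_prod, Measure.prod_prod, Real.volume_Ioc]
  norm_num

/-- Hoelder's inequality on a set -/
lemma hold_A {f : ℝ × ℝ → ℂ} (hf : Sup f) (A : Set (ℝ × ℝ)) (r : ℝ) (hr : 1 < r) :
    ∫⁻ x in A, ‖f x‖ₑ ≤ (∫⁻ x, ‖f x‖ₑ ^ r) ^ (1 / r) * volume A ^ (1 - 1 / r) := by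
  refine (holder_set volume (fun x => ‖f x‖ₑ) hf.meas.enorm A r hr).trans ?_
  gcongr
  exact Measure.restrict_le_self

lemma lint_Q {f : ℝ × ℝ → ℂ} (hf : Sup f) (r : ℝ) (hr : 0 < r) :
    ∫⁻ x, ‖f x‖ₑ ^ r = ∫⁻ x in Q0, ‖f x‖ₑ ^ r := by
  rw [← lintegral_indicator Q0_meas]
  apply lintegral_congr
  intro x
  by_cases hx : x ∈ Q0
  · rw [indicator_of_mem hx]
  · rw [indicator_of_notMem hx, hf.zero x hx]
    simp [hr]

lemma hold_r {f : ℝ × ℝ → ℂ} (hf : Sup f) (r q : ℝ) (hr : 0 < r) (hq : r < q) :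
    ∫⁻ x, ‖f x‖ₑ ^ r ≤ (∫⁻ x, ‖f x‖ₑ ^ q) ^ (r / q) := by
  rw [lint_Q hf r hr, lint_Q hf q (hr.trans hq)]
  have h1 : 1 < q / r := by
    rw [lt_div_iff₀ hr]
    linarith
  refine (holder_set volume (fun x => ‖f x‖ₑ ^ r) (hf.meas.enorm.pow_const r) Q0 (q / r)
    h1).trans (le_of_eq ?_)
  rw [Q0_vol, ENNReal.one_rpow, mul_one, one_div_div]
  congr 1
  apply lintegral_congr
  intro x
  rw [← ENNReal.rpow_mul]
  congr 1
  field_simp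

lemma int_meas {F : ℝ × ℝ → ℝ≥0∞} (hF : Measurable F) (A : Set ℝ) :
    Measurable fun y => ∫⁻ x in A, F (x, y) := by
  exact Measurable.lintegral_prod_left' hF

lemma sumP {F : ℝ × ℝ → ℝ≥0∞} (hF : Measurable F) (n : ℕ) :
    ∑ k ∈ Finset.range (2 ^ n), ∫⁻ y, ∫⁻ x in JJ n k, F (x, y) ≤ ∫⁻ p, F p := by
  rw [← lintegral_finsetSum _ (fun k _ => int_meas hF _)]
  rw [Measure.volume_eq_prod, lintegral_prod_symm _ hF.aemeasurable]
  exact lintegral_mono fun y => sum_strips n _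

/-- the mass of a strip -/
noncomputable def MM (f : ℝ × ℝ → ℂ) (n k : ℕ) : ℝ≥0∞ := ∫⁻ y, ∫⁻ x in JJ n k, ‖f (x, y)‖ₑ

lemma MM_eq {f : ℝ × ℝ → ℂ} (hf : Sup f) (n k : ℕ) :
    MM f n k = ∫⁻ p in JJ n k ×ˢ Ioc (-1 / 2 : ℝ) (1 / 2), ‖f p‖ₑ := by
  unfold MM
  rw [Measure.volume_eq_prod, ← Measure.prod_restrict, lintegral_prod_symm _
    hf.meas.enorm.aemeasurable, ← lintegral_indicator measurableSet_Ioc]
  apply lintegral_congr
  intro y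
  by_cases hy : y ∈ Ioc (-1 / 2 : ℝ) (1 / 2)
  · rw [indicator_of_mem hy]
  · rw [indicator_of_notMem hy]
    have : ∀ x, f (x, y) = 0 := fun x => hf.zero _ fun h => hy h.2
    simp [this]

lemma MM_le {f : ℝ × ℝ → ℂ} (hf : Sup f) (n k : ℕ) (q : ℝ) (hq : 1 < q) :
    MM f n k ≤ (∫⁻ x, ‖f x‖ₑ ^ q) ^ (1 / q) * (((2 : ℝ≥0∞) ^ n)⁻¹) ^ (1 - 1 / q) := by
  rw [MM_eq hf]
  refine (hold_A hf _ q hq).trans (le_of_eq ?_)
  rw [Measure.volume_eq_prod, Measure.prod_prod, JJ_vol, Real.volume_Ioc]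
  norm_num

lemma gj_zero {f : ℝ × ℝ → ℂ} (hf : Sup f) (n j : ℕ) (y : ℝ) (hy : 1 < |y|) : gj f n j y = 0 := by
  have h : ∀ x, f (x, y) = 0 := by
    intro x
    apply hf.zero
    intro h
    have h1 := h.2.1
    have h2 := h.2.2
    simp only at h1 h2
    rcases abs_cases y with h3 | h3 <;> linarith
  unfold gj co
  simp [h]

lemma gj_lint {f : ℝ × ℝ → ℂ} (n j : ℕ) :
    ∫⁻ y, ‖gj f n j y‖ₑ ≤ 2 ^ n * MM f n (j / 2) := by
  unfold MM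
  rw [← lintegral_const_mul' _ _ (by simp)]
  exact lintegral_mono fun y => gj_bd f n j y

lemma gj_int {f : ℝ × ℝ → ℂ} (hf : Sup f) (hi : ∫⁻ x, ‖f x‖ₑ ≠ ⊤) (n j : ℕ) :
    Integrable (gj f n j) := by
  refine ⟨(gj_meas hf.meas n j).aestronglyMeasurable, ?_⟩
  unfold HasFiniteIntegral
  refine (gj_lint n j).trans_lt (ENNReal.mul_lt_top (by simp) ?_)
  rw [MM_eq hf]
  exact (setLIntegral_le_lintegral _ _).trans_lt (lt_top_iff_ne_top.2 hi)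

lemma two_pow_top (n : ℕ) : ((2 : ℝ≥0∞) ^ n) ≠ ⊤ := by simp
lemma two_pow_zero (n : ℕ) : ((2 : ℝ≥0∞) ^ n) ≠ 0 := by positivity

lemma half (n : ℕ) (x : ℝ≥0∞) :
    ((2 : ℝ≥0∞) ^ (n + 1))⁻¹ * (2 ^ n * x) + ((2 : ℝ≥0∞) ^ (n + 1))⁻¹ * (2 ^ n * x) = x := by
  rw [← two_mul, ← mul_assoc, ← mul_assoc, pow_succ,
    ENNReal.mul_inv (Or.inl (two_pow_zero n)) (Or.inl (two_pow_top n))]
  have h1 : (2 : ℝ≥0∞) * (((2 : ℝ≥0∞) ^ n)⁻¹ * 2⁻¹) * 2 ^ n =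
      (2 * 2⁻¹) * (((2 : ℝ≥0∞) ^ n)⁻¹ * 2 ^ n) := by ring
  rw [h1, ENNReal.mul_inv_cancel (by simp) (by simp),
    ENNReal.inv_mul_cancel (two_pow_zero n) (two_pow_top n), one_mul, one_mul]

lemma WW_le {f : ℝ × ℝ → ℂ} (hf : Sup f) (n : ℕ) (r : ℝ) (hr : 1 < r) :
    WW (fun j : Fin (2 ^ (n + 1)) => pt (n + 1) j) (fun j => pt (n + 1) (j + 1))
      (fun j => gj f n j) r ≤ ∫⁻ x, ‖f x‖ₑ ^ r := by
  unfold Pool.Agent.H728R3.SR.WW
  set P : ℕ → ℝ≥0∞ := fun k => ∫⁻ y, ∫⁻ x in JJ n k, ‖f (x, y)‖ₑ ^ r with hP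
  have h1 : ∀ j : ℕ, ∫⁻ y, ‖gj f n j y‖ₑ ^ r ≤ 2 ^ n * P (j / 2) := by
    intro j
    rw [hP]
    simp only
    rw [← lintegral_const_mul' _ _ (by simp)]
    apply lintegral_mono
    intro y
    refine (ENNReal.rpow_le_rpow (gj_bd f n j y) (by linarith)).trans ?_
    exact jensen_set volume (fun x => ‖f (x, y)‖ₑ)
      ((hf.meas.comp (by fun_prop : Measurable fun x : ℝ => (x, y))).enorm) (JJ n (j / 2)) (2 ^ n)
      (two_pow_zero n) (two_pow_top n) (JJ_vol n _).le r hr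
  calc ∑ k : Fin (2 ^ (n + 1)), ENNReal.ofReal (pt (n + 1) (k + 1) - pt (n + 1) k) *
        ∫⁻ y, ‖gj f n k y‖ₑ ^ r
      ≤ ∑ k : Fin (2 ^ (n + 1)), ((2 : ℝ≥0∞) ^ (n + 1))⁻¹ * (2 ^ n * P (k / 2)) := by
        apply Finset.sum_le_sum
        intro k _
        rw [pt_subE]
        exact mul_le_mul_right (h1 k) _
    _ = ∑ k ∈ Finset.range (2 * 2 ^ n), ((2 : ℝ≥0∞) ^ (n + 1))⁻¹ * (2 ^ n * P (k / 2)) := by
        rw [Finset.sum_range (fun k => ((2 : ℝ≥0∞) ^ (n + 1))⁻¹ * (2 ^ n * P (k / 2)))]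
        exact Fintype.sum_equiv (finCongr (by ring)) _ _ (fun k => rfl)
    _ = ∑ k ∈ Finset.range (2 ^ n), P k := by
        rw [sum_pairs]
        apply Finset.sum_congr rfl
        intro k _
        rw [show 2 * k / 2 = k by omega, show (2 * k + 1) / 2 = k by omega, half]
    _ ≤ _ := sumP (hf.meas.enorm.pow_const r) n

/-- the sum over one generation -/
noncomputable def VV (f : ℝ × ℝ → ℂ) (n : ℕ) (ξ : ℝ × ℝ × ℝ) : ℝ≥0∞ :=
  ∑ j ∈ Finset.range (2 ^ (n + 1)), ‖ext (box (pt (n + 1) j) (pt (n + 1) (j + 1)) (gj f n j)) ξ‖ₑ ^ 2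

lemma VV_meas {f : ℝ × ℝ → ℂ} (hf : Sup f) (n : ℕ) : Measurable (VV f n) := by
  unfold VV
  exact Finset.measurable_sum _ fun j _ => (ext_me (box_meas _ _ _ (gj_meas hf.meas n j))).enorm.pow_const 2

lemma VV_int (r : ℝ) (hr : 3 < r) : ∃ K : ℝ≥0∞, K ≠ ⊤ ∧ ∀ (f : ℝ × ℝ → ℂ), Sup f →
    ∫⁻ x, ‖f x‖ₑ ≠ ⊤ → ∀ n, ∫⁻ ξ, VV f n ξ ^ (r / 2) ≤ K * ∫⁻ x, ‖f x‖ₑ ^ r := by
  obtain ⟨K, hK, hKK⟩ := strips_sq r hr
  refine ⟨K, hK, fun f hf hi n => ?_⟩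
  have h := hKK (2 ^ (n + 1)) (fun j => pt (n + 1) j) (fun j => pt (n + 1) (j + 1))
    (fun j => gj f n j) (itv (n + 1)) (fun j => gj_meas hf.meas n j)
    (fun j y hy => gj_zero hf n j y hy) (fun j => gj_int hf hi n j)
  refine le_trans (le_of_eq ?_) (h.trans (mul_le_mul_right (WW_le hf n r (by linarith)) _))
  apply lintegral_congr
  intro ξ
  unfold VV
  rw [Finset.sum_range]

lemma Z_bd {f : ℝ × ℝ → ℂ} (hf : Sup f) (n j : ℕ) (ξ : ℝ × ℝ × ℝ) :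
    ‖ext (box (pt (n + 1) j) (pt (n + 1) (j + 1)) (gj f n j)) ξ‖ₑ ≤
      ((2 : ℝ≥0∞) ^ (n + 1))⁻¹ * (2 ^ n * MM f n (j / 2)) := by
  refine (ext_bd _ ξ).trans ?_
  rw [box_lint _ _ _ (gj_meas hf.meas n j), pt_subE]
  exact mul_le_mul_right (gj_lint n j) _

lemma VV_sup {f : ℝ × ℝ → ℂ} (hf : Sup f) (n : ℕ) (ξ : ℝ × ℝ × ℝ) (q : ℝ) (hq : 1 < q) :
    VV f n ξ ≤ (∫⁻ x, ‖f x‖ₑ ^ q) ^ (2 / q) * (((2 : ℝ≥0∞) ^ n)⁻¹) ^ (1 - 1 / q) := by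
  unfold VV
  set W := ∫⁻ x, ‖f x‖ₑ ^ q with hW
  set B := W ^ (1 / q) * (((2 : ℝ≥0∞) ^ n)⁻¹) ^ (1 - 1 / q) with hB
  have hM : ∀ k, MM f n k ≤ B := fun k => MM_le hf n k q hq
  have h1 : ∑ k ∈ Finset.range (2 ^ n), MM f n k ≤ W ^ (1 / q) := by
    refine (sumP hf.meas.enorm n).trans ?_
    have h2 := hold_r hf 1 q one_pos hq
    simp only [ENNReal.rpow_one] at h2
    exact h2
  calc ∑ j ∈ Finset.range (2 ^ (n + 1)),
        ‖ext (box (pt (n + 1) j) (pt (n + 1) (j + 1)) (gj f n j)) ξ‖ₑ ^ 2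
      ≤ ∑ j ∈ Finset.range (2 ^ (n + 1)),
        B * (((2 : ℝ≥0∞) ^ (n + 1))⁻¹ * (2 ^ n * MM f n (j / 2))) := by
        apply Finset.sum_le_sum
        intro j _
        rw [sq]
        refine mul_le_mul' ((Z_bd hf n j ξ).trans ?_) (Z_bd hf n j ξ)
        have h3 := half n (MM f n (j / 2))
        calc ((2 : ℝ≥0∞) ^ (n + 1))⁻¹ * (2 ^ n * MM f n (j / 2)) ≤
            ((2 : ℝ≥0∞) ^ (n + 1))⁻¹ * (2 ^ n * MM f n (j / 2)) +
            ((2 : ℝ≥0∞) ^ (n + 1))⁻¹ * (2 ^ n * MM f n (j / 2)) := le_self_add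
          _ = MM f n (j / 2) := h3
          _ ≤ B := hM _
    _ = B * ∑ j ∈ Finset.range (2 * 2 ^ n),
        (((2 : ℝ≥0∞) ^ (n + 1))⁻¹ * (2 ^ n * MM f n (j / 2))) := by
        rw [Finset.mul_sum, show 2 * 2 ^ n = 2 ^ (n + 1) by ring]
    _ = B * ∑ k ∈ Finset.range (2 ^ n), MM f n k := by
        rw [sum_pairs (fun j => ((2 : ℝ≥0∞) ^ (n + 1))⁻¹ * (2 ^ n * MM f n (j / 2)))]
        congr 1
        apply Finset.sum_congr rfl
        intro k _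
        rw [show 2 * k / 2 = k by omega, show (2 * k + 1) / 2 = k by omega, half]
    _ ≤ B * W ^ (1 / q) := mul_le_mul_right h1 _
    _ = _ := by
        rw [hB, mul_right_comm, ← ENNReal.rpow_add_of_nonneg _ _ (by positivity) (by positivity)]
        congr 2
        ring

lemma VV_q (r q : ℝ) (hr : 3 < r) (hq : r < q) : ∃ K : ℝ≥0∞, K ≠ ⊤ ∧ ∀ (f : ℝ × ℝ → ℂ), Sup f →
    ∫⁻ x, ‖f x‖ₑ ≠ ⊤ → ∀ n, ∫⁻ ξ, VV f n ξ ^ (q / 2) ≤ K * (∫⁻ x, ‖f x‖ₑ ^ q) *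
      (((2 : ℝ≥0∞) ^ n)⁻¹) ^ ((1 - 1 / q) * ((q - r) / 2)) := by
  obtain ⟨K, hK, hKK⟩ := VV_int r hr
  refine ⟨K, hK, fun f hf hi n => ?_⟩
  set W := ∫⁻ x, ‖f x‖ₑ ^ q with hW
  set δ := (((2 : ℝ≥0∞) ^ n)⁻¹) with hδ
  have h1 : ∀ ξ, VV f n ξ ^ (q / 2) ≤
      (W ^ (2 / q) * δ ^ (1 - 1 / q)) ^ ((q - r) / 2) * VV f n ξ ^ (r / 2) := by
    intro ξ
    have h2 : VV f n ξ ^ (q / 2) = VV f n ξ ^ ((q - r) / 2) * VV f n ξ ^ (r / 2) := by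
      rw [← ENNReal.rpow_add_of_nonneg _ _ (by linarith) (by linarith)]
      congr 1
      ring
    rw [h2]
    gcongr
    exact VV_sup hf n ξ q (by linarith)
  have hq1 : 0 ≤ 1 - 1 / q := by
    have : 1 / q ≤ 1 := by
      rw [div_le_one (by linarith)]
      linarith
    linarith
  calc ∫⁻ ξ, VV f n ξ ^ (q / 2) ≤
        ∫⁻ ξ, (W ^ (2 / q) * δ ^ (1 - 1 / q)) ^ ((q - r) / 2) * VV f n ξ ^ (r / 2) :=
        lintegral_mono h1
    _ = (W ^ (2 / q) * δ ^ (1 - 1 / q)) ^ ((q - r) / 2) * ∫⁻ ξ, VV f n ξ ^ (r / 2) :=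
        lintegral_const_mul _ ((VV_meas hf n).pow_const _)
    _ ≤ (W ^ (2 / q) * δ ^ (1 - 1 / q)) ^ ((q - r) / 2) * (K * W ^ (r / q)) := by
        refine mul_le_mul_right ((hKK f hf hi n).trans ?_) _
        exact mul_le_mul_right (hold_r hf r q (by linarith) hq) _
    _ = _ := by
        rw [ENNReal.mul_rpow_of_nonneg _ _ (by linarith), ← ENNReal.rpow_mul, ← ENNReal.rpow_mul]
        have e1 : W ^ (2 / q * ((q - r) / 2)) * W ^ (r / q) = W := by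
          have hq0 : 0 < q := by linarith
          have hr0 : 0 < r := by linarith
          rw [← ENNReal.rpow_add_of_nonneg _ _ (by
            have : 0 ≤ (q - r) / 2 := by linarith
            positivity) (by positivity)]
          have : 2 / q * ((q - r) / 2) + r / q = 1 := by
            have : q ≠ 0 := by linarith
            field_simp
            ring
          rw [this, ENNReal.rpow_one]
        calc _ = K * (W ^ (2 / q * ((q - r) / 2)) * W ^ (r / q)) *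
              δ ^ ((1 - 1 / q) * ((q - r) / 2)) := by ring
          _ = _ := by rw [e1]

end Pool.Agent.Q167.HM
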