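import Mathlib
import Pool.Agent.Q167.HM.Est
set_option autoImplicit false

/-! The square function of the one-variable Haar components, and random signs. -/

namespace Pool.Agent.Q167.HM

open MeasureTheory Set Complex
open scoped ENNReal NNReal
open Pool.Agent.H728R3.SR (sg khinchine K1 semi Itv WW main_W)
open Pool.Agent.H147R3.PE (ext)

/-- the Haar components -/
noncomputable def hc (f : ℝ × ℝ → ℂ) (n k : ℕ) (x : ℝ × ℝ) : ℂ := (haar n k x.1 : ℂ) * co f n k x.2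

/-- the mean in the first variable -/
noncomputable def mn (f : ℝ × ℝ → ℂ) (x : ℝ × ℝ) : ℂ :=
  (Ioc (-1 / 2 : ℝ) (1 / 2)).indicator (fun _ => ∫ t, f (t, x.2)) x.1

lemma hc_eq (f : ℝ × ℝ → ℂ) (n k : ℕ) (x : ℝ × ℝ) :
    hc f n k x = box (pt (n + 1) (2 * k : ℕ)) (pt (n + 1) ((2 * k : ℕ) + 1)) (gj f n (2 * k)) x +
      box (pt (n + 1) (2 * k + 1 : ℕ)) (pt (n + 1) ((2 * k + 1 : ℕ) + 1)) (gj f n (2 * k + 1)) x := by
  rw [box_eq, box_eq]
  unfold hc gj haar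
  rw [show 2 * k / 2 = k by omega, show (2 * k + 1) / 2 = k by omega,
    if_pos (show 2 * k % 2 = 0 by omega), if_neg (show ¬ (2 * k + 1) % 2 = 0 by omega)]
  have e : ∀ (s : Set ℝ) (t : ℝ), (((s.indicator (1 : ℝ → ℝ) t : ℝ)) : ℂ) =
      s.indicator (fun _ => (1 : ℂ)) t := by
    intro s t
    by_cases h : t ∈ s
    · rw [indicator_of_mem h, indicator_of_mem h]
      simp
    · rw [indicator_of_notMem h, indicator_of_notMem h]
      simp
  simp only
  rw [Complex.ofReal_mul, Complex.ofReal_sub, e, e]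
  push_cast
  ring

lemma ext_add {F G : ℝ × ℝ → ℂ} (hF : Integrable F) (hG : Integrable G) (ξ : ℝ × ℝ × ℝ) :
    ext (fun x => F x + G x) ξ = ext F ξ + ext G ξ := by
  unfold Pool.Agent.H147R3.PE.ext
  rw [← integral_add (ph_int hF ξ) (ph_int hG ξ)]
  congr 1
  ext x
  ring

lemma sq_add (z w : ℂ) : ‖z + w‖ₑ ^ 2 ≤ 2 * (‖z‖ₑ ^ 2 + ‖w‖ₑ ^ 2) := by
  have h : ‖z + w‖ ^ 2 ≤ 2 * (‖z‖ ^ 2 + ‖w‖ ^ 2) := by
    have := par w z
    nlinarith [sq_nonneg ‖-z + w‖]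
  have h2 := ENNReal.ofReal_le_ofReal h
  rw [ENNReal.ofReal_mul (by norm_num), ENNReal.ofReal_add (by positivity) (by positivity)] at h2
  simp only [ENNReal.ofReal_pow (norm_nonneg _), ofReal_norm] at h2
  simpa using h2

lemma hc_sum {f : ℝ × ℝ → ℂ} (hf : Sup f) (hi : ∫⁻ x, ‖f x‖ₑ ≠ ⊤) (n : ℕ) (ξ : ℝ × ℝ × ℝ) :
    ∑ k ∈ Finset.range (2 ^ n), ‖ext (hc f n k) ξ‖ₑ ^ 2 ≤ 2 * VV f n ξ := by
  unfold VV
  rw [show 2 ^ (n + 1) = 2 * 2 ^ n by ring, sum_pairs, Finset.mul_sum]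
  apply Finset.sum_le_sum
  intro k _
  have h : hc f n k = fun x =>
      box (pt (n + 1) (2 * k : ℕ)) (pt (n + 1) ((2 * k : ℕ) + 1)) (gj f n (2 * k)) x +
      box (pt (n + 1) (2 * k + 1 : ℕ)) (pt (n + 1) ((2 * k + 1 : ℕ) + 1)) (gj f n (2 * k + 1)) x :=
    funext fun x => hc_eq f n k x
  rw [h, ext_add (box_int _ _ _ (gj_int hf hi n _)) (box_int _ _ _ (gj_int hf hi n _))]
  exact sq_add _ _

lemma mn_box (f : ℝ × ℝ → ℂ) : mn f = box (-1 / 2) (1 / 2) (fun y => ∫ t, f (t, y)) := rfl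

lemma mu_meas {f : ℝ × ℝ → ℂ} (hf : Measurable f) : Measurable fun y => ∫ t, f (t, y) := by
  have h : StronglyMeasurable (Function.uncurry fun x y : ℝ => f (x, y)) :=
    Measurable.stronglyMeasurable hf
  exact (StronglyMeasurable.integral_prod_left h).measurable

lemma JJ00 : JJ 0 0 = Ioc (-1 / 2 : ℝ) (1 / 2) := by
  unfold JJ
  rw [pt_zero]
  have h := pt_last 0
  simp only [pow_zero] at h
  rw [zero_add, h]

lemma mu_bd {f : ℝ × ℝ → ℂ} (hf : Sup f) (y : ℝ) :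
    ‖∫ t, f (t, y)‖ₑ ≤ ∫⁻ t in JJ 0 0, ‖f (t, y)‖ₑ := by
  refine (enorm_integral_le_lintegral_enorm _).trans (le_of_eq ?_)
  rw [← lintegral_indicator (JJ_meas 0 0)]
  apply lintegral_congr
  intro t
  by_cases h : t ∈ JJ 0 0
  · rw [indicator_of_mem h]
  · rw [indicator_of_notMem h, hf.zero, enorm_zero]
    intro h2
    apply h
    rw [JJ00]
    exact h2.1

lemma mn_int (q : ℝ) (hq : 3 < q) : ∃ K : ℝ≥0∞, K ≠ ⊤ ∧ ∀ (f : ℝ × ℝ → ℂ), Sup f →
    ∫⁻ x, ‖f x‖ₑ ≠ ⊤ → ∫⁻ ξ, (‖ext (mn f) ξ‖ₑ ^ 2) ^ (q / 2) ≤ K * ∫⁻ x, ‖f x‖ₑ ^ q := by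
  obtain ⟨K, hK, hKK⟩ := strips_sq q hq
  refine ⟨K, hK, fun f hf hi => ?_⟩
  have h := hKK 1 (fun _ => -1 / 2) (fun _ => 1 / 2) (fun _ y => ∫ t, f (t, y))
    ⟨fun _ => by norm_num, fun _ => by norm_num, fun _ => by norm_num, fun k l hkl =>
      absurd (Subsingleton.elim k l) hkl⟩ (fun _ => mu_meas hf.meas) (fun _ y hy => by
        have h : ∀ x, f (x, y) = 0 := by
          intro x
          apply hf.zero
          intro h
          have h1 := h.2.1
          have h2 := h.2.2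
          simp only at h1 h2
          rcases abs_cases y with h3 | h3 <;> linarith
        simp [h]) (fun _ => ⟨(mu_meas hf.meas).aestronglyMeasurable, by
          unfold HasFiniteIntegral
          refine lt_of_le_of_lt (lintegral_mono fun y => mu_bd hf y) ?_
          have h1 := sumP hf.meas.enorm 0
          simp only [pow_zero, Finset.range_one, Finset.sum_singleton] at h1
          exact h1.trans_lt (lt_top_iff_ne_top.2 hi)⟩)
  rw [← mn_box] at h
  simp only [Finset.univ_unique, Fin.default_eq_zero, Fin.isValue, Finset.sum_const,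
    Finset.card_singleton, one_smul] at h
  refine h.trans (mul_le_mul_right ?_ _)
  unfold Pool.Agent.H728R3.SR.WW
  simp only [Finset.univ_unique, Fin.default_eq_zero, Fin.isValue, Finset.sum_const,
    Finset.card_singleton, one_smul]
  have h2 := sumP (hf.meas.enorm.pow_const q) 0
  simp only [pow_zero, Finset.range_one, Finset.sum_singleton] at h2
  refine le_trans ?_ h2
  have e : ENNReal.ofReal (1 / 2 - -1 / 2) = 1 := by norm_num
  rw [e, one_mul]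
  apply lintegral_mono
  intro y
  refine (ENNReal.rpow_le_rpow (mu_bd hf y) (by linarith)).trans ?_
  have h3 := jensen_set volume (fun x => ‖f (x, y)‖ₑ)
      ((hf.meas.comp (by fun_prop : Measurable fun x : ℝ => (x, y))).enorm) (JJ 0 0) 1
      (by simp) (by simp) (by rw [JJ_vol]; simp) q (by linarith)
  simpa using h3

lemma hc_meas {f : ℝ × ℝ → ℂ} (hf : Measurable f) (n k : ℕ) : Measurable (hc f n k) := by
  unfold hc
  exact (Complex.measurable_ofReal.comp ((haar_meas n k).comp measurable_fst)).mul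
    ((co_meas hf n k).comp measurable_snd)

lemma mn_meas {f : ℝ × ℝ → ℂ} (hf : Measurable f) : Measurable (mn f) := by
  rw [mn_box]
  exact box_meas _ _ _ (mu_meas hf)

lemma geo' (x : ℝ) (hx0 : 0 < x) (hx1 : x < 1) : (∑' k : ℕ, ENNReal.ofReal (x ^ k)) ≠ ⊤ :=
  Pool.Agent.H728R3.SR.geo x hx0 hx1

/-- **The square function estimate.** -/
theorem sq_main (q : ℝ) (hq : 3 < q) : ∃ C : ℝ≥0∞, C ≠ ⊤ ∧ ∀ (f : ℝ × ℝ → ℂ), Sup f →
    ∫⁻ x, ‖f x‖ₑ ≠ ⊤ →
    ∫⁻ ξ, (‖ext (mn f) ξ‖ₑ ^ 2 +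
      ∑' n : ℕ, ∑ k ∈ Finset.range (2 ^ n), ‖ext (hc f n k) ξ‖ₑ ^ 2) ^ (q / 2) ≤
        C * ∫⁻ x, ‖f x‖ₑ ^ q := by
  obtain ⟨K0, hK0, hM⟩ := mn_int q hq
  obtain ⟨K, hK, hKK⟩ := VV_q ((3 + q) / 2) q (by linarith) (by linarith)
  set α : ℝ := (1 - 1 / q) * ((q - (3 + q) / 2) / 2) with hα
  have hα0 : 0 < α := by
    rw [hα]
    have : 1 / q < 1 := by
      rw [div_lt_one (by linarith)]
      linarith
    exact mul_pos (by linarith) (by linarith)
  set p := q / 2 with hp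
  have hp1 : 1 < p := by linarith
  set ρ : ℝ := (2 : ℝ) ^ (-(α / (2 * (p - 1)))) with hρ
  have hρ0 : 0 < ρ := by positivity
  have hρ1 : ρ < 1 := by
    apply Real.rpow_lt_one_of_one_lt_of_neg (by norm_num)
    have : 0 < α / (2 * (p - 1)) := by
      apply div_pos hα0
      linarith
    linarith
  set G := (∑' k : ℕ, ENNReal.ofReal (ρ ^ k)) ^ (p - 1) with hG
  have hGt : G ≠ ⊤ := ENNReal.rpow_ne_top_of_nonneg (by linarith) (geo' ρ hρ0 hρ1)
  set H := ∑' k : ℕ, ENNReal.ofReal (((2 : ℝ) ^ (-(α / 2))) ^ k) with hH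
  have hHt : H ≠ ⊤ := by
    apply geo'
    · positivity
    · apply Real.rpow_lt_one_of_one_lt_of_neg (by norm_num)
      linarith
  refine ⟨2 ^ (p - 1) * (K0 + G * (2 ^ p * (K * H))), ?_, ?_⟩
  · apply ENNReal.mul_ne_top (ENNReal.rpow_ne_top_of_nonneg (by linarith) (by simp))
    refine ENNReal.add_ne_top.2 ⟨hK0, ENNReal.mul_ne_top hGt (ENNReal.mul_ne_top
      (ENNReal.rpow_ne_top_of_nonneg (by linarith) (by simp)) (ENNReal.mul_ne_top hK hHt))⟩
  intro f hf hi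
  set W := ∫⁻ x, ‖f x‖ₑ ^ q with hW
  have hVm : ∀ n, Measurable fun ξ => VV f n ξ := VV_meas hf
  have h1 : ∀ ξ, (‖ext (mn f) ξ‖ₑ ^ 2 +
      ∑' n : ℕ, ∑ k ∈ Finset.range (2 ^ n), ‖ext (hc f n k) ξ‖ₑ ^ 2) ^ p ≤
      2 ^ (p - 1) * ((‖ext (mn f) ξ‖ₑ ^ 2) ^ p +
        G * ∑' n : ℕ, ENNReal.ofReal ((ρ ^ n) ^ (-(p - 1))) * (2 ^ p * VV f n ξ ^ p)) := by
    intro ξ
    have h2 : ∑' n : ℕ, ∑ k ∈ Finset.range (2 ^ n), ‖ext (hc f n k) ξ‖ₑ ^ 2 ≤
        ∑' n : ℕ, 2 * VV f n ξ := ENNReal.tsum_le_tsum fun n => hc_sum hf hi n ξ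
    refine (ENNReal.rpow_le_rpow (add_le_add_right h2 _) (by linarith)).trans ?_
    refine (ENNReal.rpow_add_le_mul_rpow_add_rpow _ _ hp1.le).trans ?_
    refine mul_le_mul_right (add_le_add_right ?_ _) _
    refine (Pool.Agent.H147R3.PE.wsum _ ρ hρ0 p hp1).trans (le_of_eq ?_)
    congr 1
    apply tsum_congr
    intro n
    rw [ENNReal.mul_rpow_of_nonneg _ _ (by linarith)]
  have hmn : Measurable fun ξ => (‖ext (mn f) ξ‖ₑ ^ 2) ^ p :=
    ((ext_me (mn_meas hf.meas)).enorm.pow_const 2).pow_const p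
  have hVp : ∀ n, Measurable fun ξ => 2 ^ p * VV f n ξ ^ p := fun n =>
    ((hVm n).pow_const p).const_mul _
  calc _ ≤ ∫⁻ ξ, 2 ^ (p - 1) * ((‖ext (mn f) ξ‖ₑ ^ 2) ^ p +
        G * ∑' n : ℕ, ENNReal.ofReal ((ρ ^ n) ^ (-(p - 1))) * (2 ^ p * VV f n ξ ^ p)) :=
        lintegral_mono h1
    _ = 2 ^ (p - 1) * ((∫⁻ ξ, (‖ext (mn f) ξ‖ₑ ^ 2) ^ p) +
        G * ∑' n : ℕ, ENNReal.ofReal ((ρ ^ n) ^ (-(p - 1))) *
          (2 ^ p * ∫⁻ ξ, VV f n ξ ^ p)) := by
        rw [lintegral_const_mul' _ _ (ENNReal.rpow_ne_top_of_nonneg (by linarith) (by simp)),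
          lintegral_add_left hmn, lintegral_const_mul' _ _ hGt,
          lintegral_tsum fun n => ((hVp n).const_mul _).aemeasurable]
        congr 3
        apply tsum_congr
        intro n
        rw [lintegral_const_mul _ (hVp n), lintegral_const_mul _ ((hVm n).pow_const p)]
    _ ≤ 2 ^ (p - 1) * (K0 * W +
        G * ∑' n : ℕ, ENNReal.ofReal ((ρ ^ n) ^ (-(p - 1))) *
          (2 ^ p * (K * W * (((2 : ℝ≥0∞) ^ n)⁻¹) ^ α))) := by
        refine mul_le_mul_right (add_le_add (hM f hf hi) (mul_le_mul_right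
          (ENNReal.tsum_le_tsum fun n => mul_le_mul_right (mul_le_mul_right ?_ _) _) _)) _
        exact hKK f hf hi n
    _ = _ := by
        have e2 : ∀ n : ℕ, ENNReal.ofReal ((ρ ^ n) ^ (-(p - 1))) *
            (2 ^ p * (K * W * (((2 : ℝ≥0∞) ^ n)⁻¹) ^ α)) =
            (2 ^ p * (K * W)) * ENNReal.ofReal (((2 : ℝ) ^ (-(α / 2))) ^ n) := by
          intro n
          have e3 : (((2 : ℝ≥0∞) ^ n)⁻¹) ^ α = ENNReal.ofReal ((((2 : ℝ) ^ n)⁻¹) ^ α) := by
            rw [← ENNReal.ofReal_rpow_of_pos (by positivity),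
              ENNReal.ofReal_inv_of_pos (by positivity), ENNReal.ofReal_pow (by norm_num)]
            simp
          have e4 : (ρ ^ n) ^ (-(p - 1)) * (((2 : ℝ) ^ n)⁻¹) ^ α = ((2 : ℝ) ^ (-(α / 2))) ^ n := by
            rw [hρ, ← Real.rpow_natCast, ← Real.rpow_natCast, ← Real.rpow_natCast,
              ← Real.rpow_neg (by norm_num), ← Real.rpow_mul (by positivity),
              ← Real.rpow_mul (by norm_num), ← Real.rpow_mul (by norm_num),
              ← Real.rpow_mul (by norm_num), ← Real.rpow_add (by norm_num)]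
            congr 1
            have : p - 1 ≠ 0 := by linarith
            field_simp
            ring
          rw [e3]
          calc _ = (2 ^ p * (K * W)) * (ENNReal.ofReal ((ρ ^ n) ^ (-(p - 1))) *
                ENNReal.ofReal ((((2 : ℝ) ^ n)⁻¹) ^ α)) := by ring
            _ = _ := by rw [← ENNReal.ofReal_mul (by positivity), e4]
        simp only [e2]
        rw [ENNReal.tsum_mul_left]
        ring

end Pool.Agent.Q167.HM
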